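import Pool.Agent.Helper60.M16.GF
import Pool.Agent.Helper60.M16.G43


set_option autoImplicit false

namespace Pool.Agent.Results.MP_16b0ee_an.QuasiconformalRange

open Pool.Agent.M16.Helper94.HR2 Pool.Agent.M16.Helper22.Half

/-- The inequality of the strong Marshall conjecture, uniformly in `R > 1`, for every member `ψ l`,
`‖l‖ ≤ k`, of a holomorphic family in Sigma over the unit disc which starts at the identity, and
every exponent `a ≤ 73 / (100 k²)` (so for all `a ≤ 1` when `k² ≤ 73 / 100`). -/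
theorem result :
    ∀ k a : ℝ, 0 < k → k < 1 → 0 < a → a * k ^ 2 ≤ 73 / 100 → ∃ C : ℝ, ∀ R : ℝ, 1 < R →
      ∀ ψ h : ℂ → ℂ → ℂ,
      (∀ l : ℂ, ‖l‖ < 1 →
        DifferentiableOn ℂ (ψ l) {z : ℂ | 1 < ‖z‖} ∧
        Set.InjOn (ψ l) {z : ℂ | 1 < ‖z‖} ∧
        (∃ b : ℂ, Filter.Tendsto (fun z => ψ l z - z) (Bornology.cobounded ℂ) (nhds b)) ∧
        DifferentiableOn ℂ (h l) {z : ℂ | 1 < ‖z‖} ∧
        (∀ z : ℂ, 1 < ‖z‖ → Complex.exp (h l z) = deriv (ψ l) z) ∧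
        Filter.Tendsto (h l) (Bornology.cobounded ℂ) (nhds 0)) →
      (∀ z : ℂ, 1 < ‖z‖ → DifferentiableOn ℂ (fun l => ψ l z) {l : ℂ | ‖l‖ < 1}) →
      (∀ z : ℂ, 1 < ‖z‖ → ψ 0 z = z) →
      ∀ l : ℂ, ‖l‖ ≤ k →
      (1 / (2 * Real.pi)) * ∫ θ in (0:ℝ)..(2 * Real.pi),
        Real.exp (a * ‖h l ((R : ℂ) * Complex.exp ((θ : ℂ) * Complex.I))‖ ^ 2
          / Real.log (R ^ 2 / (R ^ 2 - 1))) ≤ C :=
  final_family (by norm_num) Pool.Agent.M16.Helper12.HR2.D.mInt_73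

end Pool.Agent.Results.MP_16b0ee_an.QuasiconformalRange
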