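import Pool.Agent.Helper24.KG.G09

set_option autoImplicit false

namespace Pool.Agent.Results.MP_16b0ee_an.StrictSecondOrder

/-- For real `t < 2` close to `2` the circle means of `|ψ'| ^ t` over the class Sigma are, uniformly in
the class, `O` of a power of `R² / (R² - 1)` which is smaller than `t² / 4`, by `c (2 - t)²`. -/
theorem result :
    ∃ c : ℝ, 0 < c ∧ ∃ t₀ : ℝ, t₀ < 2 ∧ ∀ t : ℝ, t₀ < t → t < 2 → ∃ C : ℝ, ∀ ψ : ℂ → ℂ,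
      DifferentiableOn ℂ ψ {z : ℂ | 1 < ‖z‖} →
      Set.InjOn ψ {z : ℂ | 1 < ‖z‖} →
      (∃ b : ℂ, Filter.Tendsto (fun z => ψ z - z) (Bornology.cobounded ℂ) (nhds b)) →
      ∀ R : ℝ, 1 < R →
        (2 * Real.pi)⁻¹ * (∫ θ in (0:ℝ)..(2 * Real.pi),
          ‖deriv ψ (R * Complex.exp (θ * Complex.I))‖ ^ t) ≤
          C * (R ^ 2 / (R ^ 2 - 1)) ^ (t ^ 2 / 4 - c * (2 - t) ^ 2) := by
  obtain ⟨c, hc, δ₀, hδ₀, h⟩ := Pool.Agent.Helper90.G3.main3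
  refine ⟨c, hc, 2 - δ₀, by linarith, fun t ht ht2 => ?_⟩
  obtain ⟨C, hC⟩ := h (2 - t) (by linarith) (by linarith)
  refine ⟨C, fun ψ h1 h2 h3 R hR => ?_⟩
  have h4 := hC ψ h1 h2 h3 R hR
  have e1 : 2 - (2 - t) = t := by ring
  have e2 : 1 - (2 - t) + (1 / 4 - c) * (2 - t) ^ 2 = t ^ 2 / 4 - c * (2 - t) ^ 2 := by ring
  rw [e1, e2, one_div] at h4
  exact h4

end Pool.Agent.Results.MP_16b0ee_an.StrictSecondOrder
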